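import Pool.Agent.H83.DC.Real

/-!
# The cone conjecture is the relative cone conjecture together with the descent of the irrational nef classes

`Y` is an integral scheme, proper over `ℂ`, with an ample Cartier divisor, and `b` is a `ℤ`-basis of the integral
classes in `N^1(Y)`.  `ξ` is a degree: a linear form on `N^1(Y)`, integral on the classes of the Cartier divisors and
positive on the nonzero nef classes.

Q1 holds for `Y` if and only if `Nef(Y) ∩ Eff(Y)` is contained in the convex hull `Nef(Y)^+` of the rational nef classes,
every integral nef class is effective, the relative cone conjecture holds at every integral nef class which is not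
ample (the divisors modulo `N`, the automorphisms which fix `N`), and every nef class outside `Nef(Y)^+` can be carried
to a class of smaller degree by an automorphism.
-/

set_option autoImplicit false

namespace Pool.Agent.Results.MP_e49dc9_ag.DescentCriterion

open AlgebraicGeometry Pool.Agent.H54.RV Pool.Agent.H83.DC

/-- The descent criterion for Q1 and for a rational polyhedral fundamental domain on the convex hull of the rational
nef classes.  If the degree is invariant under the automorphisms then the descent says that every nef class is in the
convex hull of the rational nef classes. -/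
theorem result {Y : Scheme.{0}} [IsIntegral Y] (f : Y ⟶ Spec (.of ℂ)) [IsProper f]
    (hA : ∃ D : Cart (mdl f), Ample D) {n : ℕ} (b : LatB (mdl f) n) :
    (∃ ξ : N1 (mdl f) →ₗ[ℝ] ℝ, IsDeg ξ) ∧
    ∀ ξ : N1 (mdl f) →ₗ[ℝ] ℝ, IsDeg ξ →
      (Q1Y f ↔ NefE (mdl f) ⊆ NefP (mdl f) ∧ NE (mdl f) ∧ RelY f ∧ DescY f ξ) ∧
      (DomY f ↔ RelY f ∧ DescY f ξ) ∧
      ((∀ g ∈ AutS f, ∀ v, ξ (g v) = ξ v) → (DomY f ↔ RelY f ∧ NefC (mdl f) ⊆ NefP (mdl f))) :=
  descY f hA b

end Pool.Agent.Results.MP_e49dc9_ag.DescentCriterion
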