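import Pool.Agent.H32.Cone.Trans

/-!
# The cone conjecture passes to products and to finite quotients
-/

set_option autoImplicit false

open Set

namespace Pool.Agent.H39.Old.FiniteQuotients

open Pool.Agent.H32.Cone

/-- If the cone conjecture holds for the finitely many `X i`, if `P` is the product of the `X i` and `Y` is
the quotient of `P` by a finite group of automorphisms, then the cone conjecture holds for `Y`. -/
theorem result {ι : Type} [Fintype ι] (X : ι → Sit) (P Y : Sit) (hX : ∀ i, (X i).Q1)
    (hP : Sit.IsProduct X P) (hY : Sit.IsQuot P Y) : Y.Q1 :=
  Sit.q1_main hX hP hY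

end Pool.Agent.H39.Old.FiniteQuotients
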