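import Pool.Agent.H54.RV.Main

/-!
# The cone conjecture as a finiteness of volume

`Y` is an integral scheme, proper over `ℂ`, with an ample Cartier divisor, and `b` is a `ℤ`-basis of the integral
classes in `N^1(Y)`.  Q1 holds for `Y` if and only if `Nef(Y) ∩ Eff(Y)` is contained in the convex hull `Nef(Y)^+` of
the rational nef classes, every integral nef class is effective, and the part of the ample cone on which all nonzero
integral classes of the Mori cone are at least `1` has, modulo `Aut(Y)`, finite volume for the measure
`Phi(x)^(-2) dx`, where `Phi(x)` is the volume of the set of the `y` with `x + y` and `x - y` ample.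
-/

set_option autoImplicit false

namespace Pool.Agent.H39.Old.FiniteVolume

open AlgebraicGeometry Pool.Agent.H57.KM Pool.Agent.H20.FV Pool.Agent.H54.RV

/-- The criterion for Q1, and equivalent forms of the finiteness of the volume: a rational polyhedral fundamental
domain on the convex hull of the rational nef classes; cocompactness on the core with bounded `Phi`; finitely many
orbits of ample integral classes which are not ample + nonzero nef; the same for the dual cone and the dual action.
It is implied by the finiteness of the Hilbert volume of the projectivized ample cone modulo `Aut(Y)`. -/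
theorem result {Y : Scheme.{0}} [IsIntegral Y] (f : Y ⟶ Spec (.of ℂ)) [IsProper f]
    (hA : ∃ D : Cart (mdl f), Ample D) {n : ℕ} (b : LatB (mdl f) n) :
    (Q1Y f ↔ NefE (mdl f) ⊆ NefP (mdl f) ∧ NE (mdl f) ∧ FiniteVolume (ampR b) (autR f b)) ∧
    (DomY f ↔ FiniteVolume (ampR b) (autR f b)) ∧
    (DomY f ↔ Cocompact (ampR b) (autR f b)) ∧
    (DomY f ↔ FinIndS (AutS f)) ∧
    (DomY f ↔ FinOrb ((autR f b).map ct) (Ind (dual (ampR b)))) ∧
    (FiniteHilbert (ampR b) (autR f b) → DomY f) :=
  mainY f hA b

end Pool.Agent.H39.Old.FiniteVolume
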