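import Pool.Agent.H39.TZ.Pf3

/-!
# Real nef classes on threefolds with trivial canonical class, and a case of the cone conjecture

`Y` is an integral scheme, proper and smooth over `ℂ`, of dimension `3`, with an ample divisor.  `ν` maps the Cartier
divisors onto `ℤ ^ r`, with kernel the numerically trivial divisors.  The hypothesis: for every ample divisor `A` the
Hilbert polynomial of `A` has no quadratic term and a positive linear term.  By the theorem of Riemann and Roch this says
that `K ≡ 0` and `c₂ A > 0` for all ample `A`.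

Then there are a symmetric trilinear form `T` (the intersection form), a linear form `l` (`c₂ / 12`) and a number `c` which
give the Hilbert polynomials (`HilbF`), such that every REAL nef class `p` with `l p > 0` has one of the following properties:

* (a) `p ^ 3 > 0`, the nef cone is rational polyhedral near `p` (`RatAt`), and `p` is the class of an effective real divisor
  (`EffR`);
* (b) `p ^ 3 = 0`, there is an infinite family of prime divisors `F`, with the same intersection numbers, and
  `p . p . F = p . F . F = 0` (`SurF`); if `p . p` is a nonzero multiple of an integral class (`SqI`) then `p` is effective;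
* (c) `p . p = 0` and there is a covering family of curves `C` with `p . C = 0` (`FamC`).

If all nonzero nef `p` with `p ^ 3 = 0` have `l p > 0` and neither (b) nor (c), then all nef classes are effective, the nef
cone is rational polyhedral, and Q1 holds for `Y`.

(The local structure in the case (a) is due to Kawamata; new is what is said about `p` with `p ^ 3 = 0`.)
-/

set_option autoImplicit false

namespace Pool.Agent.Results.MP_e49dc9_ag.NefBoundary

open AlgebraicGeometry Pool.Agent.H57.KM Pool.Agent.H54.RV Pool.Agent.H83.TU Pool.Agent.H39.TZ Pool.Agent.H20.TD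

theorem result {Y : Scheme.{0}} [IsIntegral Y] (f : Y ⟶ Spec (.of ℂ)) [IsProper f] [Smooth f]
    (hd : Algebra.trdeg ℂ (FF f) = 3) (hA : ∃ D : Cart (mdl f), Ample D) {r : ℕ}
    (ν : Cart (mdl f) →* Multiplicative (Fin r → ℤ)) (hs : Function.Surjective ν) (hν : ∀ D, ν D = 1 ↔ NumZ D)
    (hH : ∀ A : Cart (mdl f), Ample A → ∃ a b c : ℝ, 0 < b ∧
      ∃ n₀ : ℕ, ∀ n : ℕ, n₀ ≤ n → (h0 A n : ℝ) = a * (n : ℝ) ^ 3 + b * n + c) :
    ∃ (T : (Fin r → ℝ) → (Fin r → ℝ) → (Fin r → ℝ) → ℝ) (l : (Fin r → ℝ) → ℝ) (c : ℝ), HilbF ν T l c ∧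
      (∀ p ∈ closure (AmpR ν), 0 < l p →
        (0 < T p p p ∧ RatAt ν p ∧ EffR ν p) ∨
        (T p p p = 0 ∧ SurF ν T p ∧ (T p p = 0 ∨ EffR ν p ∨ ¬ SqI ν T p)) ∨
        (T p p = 0 ∧ FamC ν p)) ∧
      ((∀ p ∈ closure (AmpR ν), p ≠ 0 → T p p p = 0 →
          0 < l p ∧ ¬ SurF ν T p ∧ ¬ (T p p = 0 ∧ FamC ν p)) →
        NefC (mdl f) ⊆ EffC (mdl f) ∧ RatPolyC (NefC (mdl f)) ∧ Q1Y f) := by
  have h := Pool.Agent.H20.TU.hyp_smooth f hd hA
  have := Pool.Agent.H32.TK.t0_mdl f
  exact zpf f h ⟨hs, hν⟩ hH

end Pool.Agent.Results.MP_e49dc9_ag.NefBoundary
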