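import Pool.Agent.H39.RT.Fin2
import Pool.Agent.H89.RT.Main
import Pool.Agent.H83.TU.SE
import Pool.Agent.H20.TU.SMB
import Pool.Agent.H32.TK.T0

/-!
# Rationality of the nef cone on threefolds with trivial canonical class where `c₂` is positive

`Y` is an integral scheme, proper and smooth over `ℂ`, of dimension `3`, with an ample divisor.  `ν` maps the Cartier
divisors onto `ℤ ^ r`, with kernel the numerically trivial divisors.  The hypothesis: for every ample divisor `A` the
Hilbert polynomial of `A` has no quadratic term and a positive linear term.  By the theorem of Riemann and Roch this says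
that `K ≡ 0` and `c₂ A > 0` for all ample `A`.

Then there are a symmetric trilinear form `T` (the intersection form), a linear form `l` (`c₂ / 12`) and a number `c` which
give the Hilbert polynomials (`HilbF`), such that every REAL nef class `p` with `l p > 0` has one of the following properties:

* (I) all `y` near `p` in the smallest rational subspace which contains `p` are nef (`RatIn`); so `p` is a combination of
  rational nef classes with positive coefficients, and `p` is rational if it spans an extremal ray of the nef cone;
* (II) `p ^ 3 = 0`, `p . p` is not a multiple of an integral class, and there is an infinite family of prime divisors `F`,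
  with the same intersection numbers, and `p . p . F = p . F . F = 0` (`IrrF`).

If all nonzero nef `p` have `l p > 0` and not (II), then the nef cone is the convex hull of the rational nef classes.  If
moreover at each divisor `D` with a nonzero nef class and `D ^ 3 = 0` the nef cone is rational polyhedral, and `D` is
effective if `D . D = 0` (`FibP`), then all nef classes are effective, the nef cone is rational polyhedral, and Q1 holds.

`ThrR`: for ample `A` and any `D` the nef threshold of `D` is rational, unless there are infinitely many pairwise disjoint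
prime divisors with the same intersection numbers, which determine the threshold by a quadratic equation.
-/

set_option autoImplicit false

namespace Pool.Agent.H39.Old.RationalNefCone

open AlgebraicGeometry Pool.Agent.H57.KM Pool.Agent.H54.RV Pool.Agent.H83.TU Pool.Agent.H39.TZ Pool.Agent.H20.TD
  Pool.Agent.H39.RT

theorem result {Y : Scheme.{0}} [IsIntegral Y] (f : Y ⟶ Spec (.of ℂ)) [IsProper f] [Smooth f]
    (hd : Algebra.trdeg ℂ (FF f) = 3) (hA : ∃ D : Cart (mdl f), Ample D) {r : ℕ}
    (ν : Cart (mdl f) →* Multiplicative (Fin r → ℤ)) (hs : Function.Surjective ν) (hν : ∀ D, ν D = 1 ↔ NumZ D)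
    (hH : ∀ A : Cart (mdl f), Ample A → ∃ a b c : ℝ, 0 < b ∧
      ∃ n₀ : ℕ, ∀ n : ℕ, n₀ ≤ n → (h0 A n : ℝ) = a * (n : ℝ) ^ 3 + b * n + c) :
    ∃ (T : (Fin r → ℝ) → (Fin r → ℝ) → (Fin r → ℝ) → ℝ) (l : (Fin r → ℝ) → ℝ) (c : ℝ), HilbF ν T l c ∧
      (∀ p ∈ closure (AmpR ν), 0 < l p → RatIn ν p ∨ IrrF ν T p) ∧
      ((∀ p ∈ closure (AmpR ν), p ≠ 0 → 0 < l p ∧ ¬ IrrF ν T p) → NefC (mdl f) ⊆ NefP (mdl f) ∧
        (FibP ν T → NefC (mdl f) ⊆ EffC (mdl f) ∧ RatPolyC (NefC (mdl f)) ∧ Q1Y f)) ∧
      ThrR ν T := by
  have h := Pool.Agent.H20.TU.hyp_smooth f hd hA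
  have := Pool.Agent.H32.TK.t0_mdl f
  have hN : Pool.Agent.H20.TD.NumR ν := ⟨hs, hν⟩
  exact r_fin2 f h hN hH fun T l₀ c TR l hr hT hl p hp hlp => Pool.Agent.H89.RT.thmR h hr hN hT hl hp hlp

end Pool.Agent.H39.Old.RationalNefCone
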