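import Pool.Agent.H39.TQ.Fin
import Pool.Agent.H83.TU.SE
import Pool.Agent.H20.TU.SMB
import Pool.Agent.H32.TK.T0

/-!
# Nef thresholds on threefolds with trivial canonical class are rational, up to fibrations over a curve

`Y` is an integral scheme, proper and smooth over `ℂ`, of dimension `3`, with an ample divisor.  `ν` maps the Cartier
divisors to `ℤ ^ ρ`, with kernel the numerically trivial divisors.  The hypothesis: for every ample divisor `A` the
Hilbert polynomial of `A` has no quadratic term and a positive linear term.  By the theorem of Riemann and Roch this says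
that `K ≡ 0` and `c₂ A > 0` for all ample `A`.

Then there are a symmetric trilinear form `T`, `T U V W = U . V . W`, a linear form `l` and a number `c` which give the
Hilbert polynomials (`HilbT`).  For `A` ample and any `D` the nef threshold `s` of `D` with respect to `A`, the infimum of
the `a / b` with `b ≥ 1` and `a A + b D` ample, is rational, or there are infinitely many pairwise disjoint prime divisors
`F 0, F 1, ..` which are numerically equal, with `F i . F j = 0`, a multiple of their class is nef, and `s` is the larger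
root of the quadratic polynomial `(D + x A) . (D + x A) . F 0`.

(The case `(D + s A)³ > 0` is due to Kawamata; new is the case `(D + s A)³ = 0`.)
-/

set_option autoImplicit false

namespace Pool.Agent.Results.MP_e49dc9_ag.RationalThresholds

open AlgebraicGeometry Pool.Agent.H57.KM Pool.Agent.H54.RV Pool.Agent.H83.TU Pool.Agent.H39.TQ

theorem result {Y : Scheme.{0}} [IsIntegral Y] (f : Y ⟶ Spec (.of ℂ)) [IsProper f] [Smooth f]
    (hd : Algebra.trdeg ℂ (FF f) = 3) (hA : ∃ D : Cart (mdl f), Ample D) {ρ : ℕ}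
    (ν : Cart (mdl f) →* Multiplicative (Fin ρ → ℤ)) (hν : ∀ D, ν D = 1 ↔ NumZ D)
    (hH : ∀ A : Cart (mdl f), Ample A → ∃ a b c : ℝ, 0 < b ∧
      ∃ n₀ : ℕ, ∀ n : ℕ, n₀ ≤ n → (h0 A n : ℝ) = a * (n : ℝ) ^ 3 + b * n + c) :
    ∃ (T : Cart (mdl f) → Cart (mdl f) → Cart (mdl f) → ℤ) (l : Cart (mdl f) → ℝ) (c : ℝ), HilbT T l c ∧
      ∀ A D : Cart (mdl f), Ample A →
        ∃ s : ℝ, IsGLB {x : ℝ | ∃ a b : ℤ, 0 < b ∧ x = a / b ∧ Ample (A ^ a * D ^ b)} s ∧
          ((∃ q : ℚ, s = q) ∨ ∃ F : ℕ → Cart (mdl f), Fib T F ∧ Bd T A D s F) := by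
  have h := Pool.Agent.H20.TU.hyp_smooth f hd hA
  have := Pool.Agent.H32.TK.t0_mdl f
  obtain ⟨T, l, c, hT⟩ := exists_hilb h hH
  exact ⟨T, l, c, hT, fun A D hA => thr_all h hT ν (fun D hD => (hν D).1 hD) A D hA⟩

end Pool.Agent.Results.MP_e49dc9_ag.RationalThresholds
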